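import Pool.Agent.LE.StmtsH

/-!
# CPG: completeness outside of a negligible set
-/

set_option autoImplicit false

open MeasureTheory ProbabilityTheory Function Filter

open scoped ENNReal BigOperators InnerProductSpace Topology

noncomputable section

namespace Pool.Agent.LE.H65C

open Pool.Agent.Anderson Pool.Agent.Loc Pool.Agent.Mob Pool.Agent.Helper54.Bal Pool.Agent.LE.CH

variable {d : ℕ}

theorem box_mono' {n m : ℕ} (h : n ≤ m) : box (0 : Site d) n ⊆ box (0 : Site d) m := by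
  intro y hy
  rw [mem_box] at hy ⊢
  exact hy.trans h

theorem exists_box (s : Finset (Site d)) : ∃ n : ℕ, s ⊆ box (0 : Site d) n := by
  classical
  induction s using Finset.induction_on with
  | empty => exact ⟨0, Finset.empty_subset _⟩
  | insert x s _ ih =>
    obtain ⟨n, hn⟩ := ih
    refine ⟨max n (sd 0 x), ?_⟩
    intro y hy
    rcases Finset.mem_insert.1 hy with rfl | hy
    · rw [mem_box]
      exact le_max_right _ _
    · exact box_mono' (le_max_left _ _) (hn hy)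

theorem tail (u : L2 d) {δ : ℝ} (hδ : 0 < δ) :
    ∃ n : ℕ, ‖u - ∑ x ∈ box (0 : Site d) n, u x • del x‖ ≤ δ := by
  classical
  have h1 : HasSum (fun x : Site d => u x • del x) u := by
    have h2 : HasSum (fun x => lp.single 2 x (u x)) u := lp.hasSum_single (by norm_num) u
    have h3 : (fun x : Site d => u x • del x) = fun x => lp.single 2 x (u x) := by
      funext x
      unfold del
      rw [← lp.single_smul, smul_eq_mul, mul_one]
    rw [h3]
    exact h2
  have h2 := (Metric.tendsto_nhds.1 h1 δ hδ)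
  obtain ⟨s, hs⟩ := Filter.eventually_atTop.1 h2
  obtain ⟨n, hn⟩ := exists_box s
  refine ⟨n, ?_⟩
  have h3 := hs _ hn
  rw [dist_eq_norm, norm_sub_rev] at h3
  exact h3.le

/-- boundedness on a compact set -/
theorem bdd_compact (wtc : WtcStmt) {V : Site d → ℝ} {u : L2 d} {O J K : Set ℝ}
    (hO : Cpl V O) (hu : Orth V J u) (hK : IsCompact K)
    (hloc : ∀ x ∈ K, ∃ s : ℝ, 0 < s ∧ Set.Icc (x - s) (x + s) ⊆ O ∧
      Set.Icc (x - s) (x + s) ⊆ J) :
    ∃ C : ℝ, 0 ≤ C ∧ ∀ η : ℝ, 0 < η → ∀ E ∈ K, ‖G V (zz η E) u‖ ≤ C := by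
  refine hK.induction_on (p := fun S => ∃ C : ℝ, 0 ≤ C ∧ ∀ η : ℝ, 0 < η →
    ∀ E ∈ S, ‖G V (zz η E) u‖ ≤ C) ?_ ?_ ?_ ?_
  · exact ⟨0, le_rfl, fun _ _ E hE => absurd hE (Set.notMem_empty E)⟩
  · rintro s t hst ⟨C, hC, h⟩
    exact ⟨C, hC, fun η hη E hE => h η hη E (hst hE)⟩
  · rintro s t ⟨C, hC, h⟩ ⟨C', hC', h'⟩
    refine ⟨max C C', hC.trans (le_max_left _ _), fun η hη E hE => ?_⟩
    rcases hE with hE | hE
    · exact (h η hη E hE).trans (le_max_left _ _)
    · exact (h' η hη E hE).trans (le_max_right _ _)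
  · intro x hx
    obtain ⟨s, hs, h1, h2⟩ := hloc x hx
    have hor : Orth V (Set.Icc (x - s) (x + s)) u := fun E φ hE hφ => hu E φ (h2 hE) hφ
    refine ⟨Set.Ioo (x - s / 2) (x + s / 2), ?_, 4 * ‖u‖ / s, by positivity, ?_⟩
    · exact mem_nhdsWithin_of_mem_nhds (Ioo_mem_nhds (by linarith) (by linarith))
    · intro η hη E hE
      have h3 := wtc d V x s η E u hη (hO x s h1) hor
      have h4 : |E - x| < s / 2 := by
        rw [abs_lt]
        constructor <;> linarith [hE.1, hE.2]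
      have h5 : s / 2 * ‖G V (zz η E) u‖ ≤ 2 * ‖u‖ :=
        (mul_le_mul_of_nonneg_right (by linarith) (norm_nonneg _)).trans h3
      rw [le_div_iff₀ hs]
      linarith

/-- the compact part carries mass `O(η)` -/
theorem wt_compact (wtc : WtcStmt) {V : Site d → ℝ} {u : L2 d} {O J K : Set ℝ} {a r : ℝ}
    (hO : Cpl V O) (hu : Orth V J u) (hK : IsCompact K) (hKr : K ⊆ Set.Icc (a - r) (a + r))
    (hloc : ∀ x ∈ K, ∃ s : ℝ, 0 < s ∧ Set.Icc (x - s) (x + s) ⊆ O ∧
      Set.Icc (x - s) (x + s) ⊆ J) (hr : 0 ≤ r) :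
    ∃ C : ℝ, 0 ≤ C ∧ ∀ η : ℝ, 0 < η → wt V K η u ≤ ENNReal.ofReal (C * η) := by
  obtain ⟨C, hC, hb⟩ := bdd_compact wtc hO hu hK hloc
  refine ⟨C ^ 2 / Real.pi * (2 * r), by positivity, fun η hη => ?_⟩
  unfold wt
  calc ∫⁻ E in K, ENNReal.ofReal (η / Real.pi * ‖G V (zz η E) u‖ ^ 2)
      ≤ ∫⁻ _E in K, ENNReal.ofReal (η / Real.pi * C ^ 2) := by
        refine setLIntegral_mono' hK.measurableSet fun E hE => ENNReal.ofReal_le_ofReal ?_
        exact mul_le_mul_of_nonneg_left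
          (pow_le_pow_left₀ (norm_nonneg _) (hb η hη E hE) 2) (by positivity)
    _ = ENNReal.ofReal (η / Real.pi * C ^ 2) * volume K := by rw [setLIntegral_const]
    _ ≤ ENNReal.ofReal (η / Real.pi * C ^ 2) * ENNReal.ofReal (2 * r) := by
        refine mul_le_mul_right ?_ _
        refine (measure_mono hKr).trans ?_
        rw [Real.volume_Icc]
        exact ENNReal.ofReal_le_ofReal (by linarith)
    _ = ENNReal.ofReal (C ^ 2 / Real.pi * (2 * r) * η) := by
        rw [← ENNReal.ofReal_mul (by positivity)]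
        congr 1
        ring

theorem cpg (wta : WtaStmt) (wtl : WtlStmt) (wtc : WtcStmt) (wtq : WtqStmt) : CpgStmt := by
  intro d V U O I hO hU hS hI hC a r har u w hw hOr
  by_cases hr : r ≤ 0
  · exact (mul_nonpos_of_nonpos_of_nonneg hr (norm_nonneg _)).trans (norm_nonneg _)
  push Not at hr
  have hN := norm_nonneg (w - (a : ℂ) • u)
  have key : ∀ r' : ℝ, 0 < r' → r' < r → r' * ‖u‖ ≤ ‖w - (a : ℂ) • u‖ := by
    intro r' hr' hrr'
    refine (pow_le_pow_iff_left₀ (by positivity) hN two_ne_zero).1 ?_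
    refine le_of_forall_pos_le_add fun ε hε => ?_
    obtain ⟨δ, hδ⟩ : ∃ δ : ℝ, δ = min 1 (ε / (8 * r' ^ 2)) := ⟨_, rfl⟩
    have hδ0 : 0 < δ := by rw [hδ]; exact lt_min one_pos (by positivity)
    have hδ1 : δ ≤ 1 := by rw [hδ]; exact min_le_left _ _
    have hδ2 : r' ^ 2 * (2 * δ ^ 2) ≤ ε / 4 := by
      have h1 : δ ≤ ε / (8 * r' ^ 2) := by rw [hδ]; exact min_le_right _ _
      have h2 : δ * (8 * r' ^ 2) ≤ ε := (le_div_iff₀ (by positivity)).1 h1
      have h3 : δ ^ 2 ≤ δ := by nlinarith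
      have h4 : r' ^ 2 * δ ^ 2 ≤ r' ^ 2 * δ := mul_le_mul_of_nonneg_left h3 (by positivity)
      nlinarith
    obtain ⟨n, hn⟩ := tail u hδ0
    obtain ⟨e, he⟩ : ∃ e : ℝ, e = ε / (8 * r' ^ 2 * (‖u‖ ^ 2 + 1)) := ⟨_, rfl⟩
    have he0 : 0 < e := by rw [he]; positivity
    have he1 : r' ^ 2 * (2 * ‖u‖ ^ 2 * e) ≤ ε / 4 := by
      have h1 : e * (8 * r' ^ 2 * (‖u‖ ^ 2 + 1)) = ε := by
        rw [he]; field_simp
      have h2 : 0 ≤ e * r' ^ 2 := by positivity
      nlinarith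
    obtain ⟨k, hk⟩ := hS n e he0
    obtain ⟨J, hJ⟩ : ∃ J : Set ℝ, J = Set.Icc (a - r') (a + r') := ⟨_, rfl⟩
    have hJI : J ⊆ Set.Icc (a - r) (a + r) := by
      rw [hJ]
      exact Set.Icc_subset_Icc (by linarith) (by linarith)
    have hKc : IsCompact (J \ U k) := by
      rw [hJ]
      exact isCompact_Icc.diff (hU k)
    obtain ⟨C', hC'0, hC'⟩ := wt_compact (a := a) (r := r) wtc hC hOr hKc
      (Set.sdiff_subset.trans hJI) (by
        intro x hx
        have hxI : x ∈ I := har (hJI hx.1)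
        have hxO : x ∈ O := by
          rcases hI k hxI with h | h
          · exact h
          · exact absurd h hx.2
        obtain ⟨s, hs, hsO⟩ := Metric.isOpen_iff.1 hO x hxO
        have hxJ : a - r' ≤ x ∧ x ≤ a + r' := by
          have := hx.1
          rw [hJ] at this
          exact this
        refine ⟨min (s / 2) (r - r'), lt_min (by linarith) (by linarith), ?_, ?_⟩
        · intro y hy
          apply hsO
          have h1 := min_le_left (s / 2) (r - r')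
          rw [Metric.mem_ball, Real.dist_eq, abs_lt]
          constructor <;> linarith [hy.1, hy.2]
        · intro y hy
          have h1 := min_le_right (s / 2) (r - r')
          constructor <;> linarith [hy.1, hy.2, hxJ.1, hxJ.2]) hr.le
    -- small `η`
    have ht1 : Tendsto (fun η : ℝ => (r' ^ 2 + 3 * r') * √η * ‖u‖ ^ 2) (𝓝 0) (𝓝 0) := by
      have h1 : Continuous fun η : ℝ => (r' ^ 2 + 3 * r') * √η * ‖u‖ ^ 2 := by fun_prop
      refine h1.tendsto' _ _ ?_
      rw [Real.sqrt_zero, mul_zero, zero_mul]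
    have ht2 : Tendsto (fun η : ℝ => r' ^ 2 * (C' * η)) (𝓝 0) (𝓝 0) := by
      have h1 : Continuous fun η : ℝ => r' ^ 2 * (C' * η) := by fun_prop
      refine h1.tendsto' _ _ ?_
      rw [mul_zero, mul_zero]
    have htm : Tendsto (fun m : ℕ => 1 / ((m : ℝ) + 1)) atTop (𝓝 0) :=
      tendsto_one_div_add_atTop_nhds_zero_nat
    have hev1 := (ht1.comp htm).eventually (ge_mem_nhds (show (0 : ℝ) < ε / 4 by positivity))
    have hev2 := (ht2.comp htm).eventually (ge_mem_nhds (show (0 : ℝ) < ε / 4 by positivity))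
    obtain ⟨m, hm0, hm1, hm2⟩ := (hk.and_eventually (hev1.and hev2)).exists
    obtain ⟨η, hη⟩ : ∃ η : ℝ, η = 1 / ((m : ℝ) + 1) := ⟨_, rfl⟩
    have hη0 : 0 < η := by rw [hη]; positivity
    have hη1 : η ≤ 1 := by
      rw [hη]
      exact (div_le_one (by positivity)).2 (by linarith [Nat.cast_nonneg (α := ℝ) m])
    rw [← hη] at hm0
    have hm1' : (r' ^ 2 + 3 * r') * √η * ‖u‖ ^ 2 ≤ ε / 4 := by rw [hη]; exact hm1
    have hm2' : r' ^ 2 * (C' * η) ≤ ε / 4 := by rw [hη]; exact hm2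
    -- the splitting of the vector
    obtain ⟨un, hun⟩ : ∃ un : L2 d, un = ∑ x ∈ box (0 : Site d) n, u x • del x := ⟨_, rfl⟩
    obtain ⟨vn, hvn⟩ : ∃ vn : L2 d, vn = u - un := ⟨_, rfl⟩
    have hsplit : u = un + vn := by rw [hvn]; abel
    have hvnn : ‖vn‖ ≤ δ := by rw [hvn, hun]; exact hn
    have hU1 : wt V (U k) η u ≤ 2 * wt V (U k) η un + 2 * wt V (U k) η vn := by
      have h := (wta d V (U k) η hη0).1 un vn
      rwa [← hsplit] at h
    have hU2 : wt V (U k) η un ≤ ENNReal.ofReal (‖u‖ ^ 2) * ENNReal.ofReal e := by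
      rw [hun]
      exact ((wta d V (U k) η hη0).2.2 n u).trans (mul_le_mul_right hm0.le _)
    have hU3 : wt V (U k) η vn ≤ ENNReal.ofReal (δ ^ 2) :=
      (wtl d V (U k) η vn hη0).trans (ENNReal.ofReal_le_ofReal
        (pow_le_pow_left₀ (norm_nonneg _) hvnn 2))
    have hU4 : wt V (U k) η u ≤ ENNReal.ofReal (2 * ‖u‖ ^ 2 * e + 2 * δ ^ 2) := by
      refine hU1.trans ?_
      have e1 : ENNReal.ofReal (2 * ‖u‖ ^ 2 * e + 2 * δ ^ 2) =
          2 * (ENNReal.ofReal (‖u‖ ^ 2) * ENNReal.ofReal e) + 2 * ENNReal.ofReal (δ ^ 2) := by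
        rw [ENNReal.ofReal_add (by positivity) (by positivity), mul_assoc,
          ENNReal.ofReal_mul (by norm_num : (0 : ℝ) ≤ 2),
          ENNReal.ofReal_mul (by norm_num : (0 : ℝ) ≤ 2),
          ENNReal.ofReal_mul (by positivity)]
        norm_num
      rw [e1]
      gcongr
    have hW : wt V J η u ≤ ENNReal.ofReal (C' * η + (2 * ‖u‖ ^ 2 * e + 2 * δ ^ 2)) := by
      have h1 : wt V J η u ≤ wt V (J \ U k) η u + wt V (U k) η u := by
        unfold wt
        refine (lintegral_mono_set (show J ⊆ (J \ U k) ∪ U k from ?_)).trans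
          (lintegral_union_le _ _ _)
        intro y hy
        by_cases h : y ∈ U k
        · exact Or.inr h
        · exact Or.inl ⟨hy, h⟩
      refine h1.trans ?_
      rw [ENNReal.ofReal_add (by positivity) (by positivity)]
      exact add_le_add (hC' η hη0) hU4
    have hmain := wtq d V a r' η u w hr'.le hη0 hη1 hw
    rw [← hJ] at hmain
    have hfin : ENNReal.ofReal (r' ^ 2 * ‖u‖ ^ 2) ≤
        ENNReal.ofReal ((‖w - (a : ℂ) • u‖ ^ 2 + (r' ^ 2 + 3 * r') * √η * ‖u‖ ^ 2) +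
          r' ^ 2 * (C' * η + (2 * ‖u‖ ^ 2 * e + 2 * δ ^ 2))) := by
      refine hmain.trans ?_
      have e4 : ENNReal.ofReal ((‖w - (a : ℂ) • u‖ ^ 2 + (r' ^ 2 + 3 * r') * √η * ‖u‖ ^ 2) +
          r' ^ 2 * (C' * η + (2 * ‖u‖ ^ 2 * e + 2 * δ ^ 2))) =
          ENNReal.ofReal (‖w - (a : ℂ) • u‖ ^ 2 + (r' ^ 2 + 3 * r') * √η * ‖u‖ ^ 2) +
          ENNReal.ofReal (r' ^ 2) *
            ENNReal.ofReal (C' * η + (2 * ‖u‖ ^ 2 * e + 2 * δ ^ 2)) := by
        rw [← ENNReal.ofReal_mul (show (0 : ℝ) ≤ r' ^ 2 by positivity)]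
        exact ENNReal.ofReal_add (by positivity) (by positivity)
      rw [e4]
      exact add_le_add le_rfl (mul_le_mul_right hW _)
    have hreal := (ENNReal.ofReal_le_ofReal_iff (by positivity)).1 hfin
    have e2 : (r' * ‖u‖) ^ 2 = r' ^ 2 * ‖u‖ ^ 2 := by ring
    rw [e2]
    have e3 : r' ^ 2 * (C' * η + (2 * ‖u‖ ^ 2 * e + 2 * δ ^ 2)) =
        r' ^ 2 * (C' * η) + r' ^ 2 * (2 * ‖u‖ ^ 2 * e) + r' ^ 2 * (2 * δ ^ 2) := by ring
    rw [e3] at hreal
    linarith
  have htend : Tendsto (fun r' : ℝ => r' * ‖u‖) (𝓝[<] r) (𝓝 (r * ‖u‖)) :=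
    ((continuous_id.mul continuous_const).tendsto' r (r * ‖u‖) rfl).mono_left
      nhdsWithin_le_nhds
  refine le_of_tendsto htend ?_
  filter_upwards [Ioo_mem_nhdsLT hr] with r' hr'
  exact key r' hr'.1 hr'.2

end Pool.Agent.LE.H65C
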